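import Pool.Agent.Y719.LP.Smooth

set_option autoImplicit false

/-! The theorem for smooth functions without the auxiliary exponent. -/

namespace Pool.Agent.Y719.LP

open Finset Filter
open Pool.Agent.W147.PS (ff ff_compare ev_pow)

/-- Record gaps around the values of functions whose derivative of order `k + 1` is between
`t ^ (-b1)` and `t ^ (-b2)` and monotone, `0 < b2`, `b1 < k + 1`, `b1 < b2 + 1`. -/
theorem smooth_three (k : ℕ) (s : ℝ) (hs : s = 1 ∨ s = -1) (b1 b2 g : ℝ) (hb2 : 0 < b2)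
    (hb1 : b1 < k + 1) (hb : b1 < b2 + 1) (hg : 0 < g) (φ : ℕ → ℝ → ℝ) (t₀ : ℝ)
    (hder : ∀ m ≤ k + 1, ∀ t, t₀ ≤ t → HasDerivAt (φ m) (φ (m + 1) t) t)
    (hlow : ∀ t, t₀ ≤ t → t ^ (-b1) ≤ s * φ (k + 1) t)
    (hup : ∀ t, t₀ ≤ t → s * φ (k + 1) t ≤ t ^ (-b2))
    (hdec : ∀ t, t₀ ≤ t → s * φ (k + 2) t ≤ 0)
    (hgrow : ∀ t, t₀ ≤ t → t ^ g ≤ φ 0 t) :
    ∃ κ : ℝ, 0 < κ ∧ ∃ δ : ℝ, 0 < δ ∧ ∃ M₀ : ℝ, ∀ M : ℝ, M₀ ≤ M → ∃ n : ℕ, M < n ∧
      (n : ℝ) ≤ M + M ^ (1 - δ) ∧ ∀ q : ℕ, q.Prime → κ * ff M < |(q : ℝ) - φ 0 n| := by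
  obtain ⟨h, h0, h1, h2, h3⟩ : ∃ h : ℝ, 0 < h ∧ h < 1 ∧ b1 - 1 < k * h ∧ k * h < b2 := by
    rcases Nat.eq_zero_or_pos k with rfl | hk
    · refine ⟨1 / 2, by norm_num, by norm_num, ?_, ?_⟩
      · push_cast at hb1 ⊢
        linarith
      · push_cast
        linarith
    · have hk' : (1 : ℝ) ≤ k := by exact_mod_cast hk
      obtain ⟨u, hu⟩ : ∃ u : ℝ, u = max (b1 - 1) 0 := ⟨_, rfl⟩
      obtain ⟨v, hv⟩ : ∃ v : ℝ, v = min b2 k := ⟨_, rfl⟩
      have hu1 : b1 - 1 ≤ u := by rw [hu]; exact le_max_left _ _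
      have hu2 : 0 ≤ u := by rw [hu]; exact le_max_right _ _
      have hv1 : v ≤ b2 := by rw [hv]; exact min_le_left _ _
      have hv2 : v ≤ k := by rw [hv]; exact min_le_right _ _
      have huv : u < v := by
        rw [hu, hv]
        exact lt_min (max_lt (by linarith) hb2) (max_lt (by linarith) (by linarith))
      have hkne : (k : ℝ) ≠ 0 := by linarith
      have e : k * ((u + v) / 2 / k) = (u + v) / 2 := by field_simp
      refine ⟨(u + v) / 2 / k, div_pos (by linarith) (by linarith), ?_, ?_, ?_⟩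
      · rw [div_lt_one (by linarith)]
        linarith
      · rw [e]; linarith
      · rw [e]; linarith
  exact smooth_two k s hs h b1 b2 g h0 h1 h2 h3 hg φ t₀ hder hlow hup hdec hgrow

end Pool.Agent.Y719.LP
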