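import Mathlib

set_option autoImplicit false

/-! The derivatives of the functions `t ^ x * (log t) ^ y`. -/

namespace Pool.Agent.Y719.LP

open Finset Filter Topology

/-- coefficients of the derivatives of `t ^ x * (log t) ^ y` -/
noncomputable def cf (x y : ℝ) : ℕ → ℕ → ℝ
  | 0, 0 => 1
  | 0, _ + 1 => 0
  | m + 1, 0 => (x - m) * cf x y m 0
  | m + 1, j + 1 => (x - m) * cf x y m (j + 1) + (y - j) * cf x y m j

lemma cf_zero_of_lt (x y : ℝ) : ∀ m j : ℕ, m < j → cf x y m j = 0 := by
  intro m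
  induction m with
  | zero =>
    intro j hj
    obtain ⟨i, rfl⟩ : ∃ i, j = i + 1 := ⟨j - 1, by omega⟩
    rfl
  | succ m ih =>
    intro j hj
    obtain ⟨i, rfl⟩ : ∃ i, j = i + 1 := ⟨j - 1, by omega⟩
    rw [cf, ih (i + 1) (by omega), ih i (by omega)]
    ring

lemma cf_zero_right (x y : ℝ) (m : ℕ) : cf x y m 0 = ∏ i ∈ range m, (x - i) := by
  induction m with
  | zero => rfl
  | succ m ih => rw [cf, ih, prod_range_succ]; ring

lemma cf_ne (x y : ℝ) (hx : ∀ m : ℕ, x ≠ m) (m : ℕ) : cf x y m 0 ≠ 0 := by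
  rw [cf_zero_right]
  exact prod_ne_zero_iff.2 fun i _ => sub_ne_zero.2 (hx i)

lemma cf_nat_zero (y : ℝ) {r m : ℕ} (hr : r < m) : cf (r : ℝ) y m 0 = 0 := by
  rw [cf_zero_right]
  exact prod_eq_zero (mem_range.2 hr) (sub_self _)

lemma cf_nat_one (y : ℝ) (hy : y ≠ 0) {r : ℕ} : ∀ m : ℕ, r < m → cf (r : ℝ) y m 1 ≠ 0 := by
  intro m
  induction m with
  | zero => intro h; omega
  | succ m ih =>
    intro h
    rcases Nat.lt_or_ge r m with h1 | h1
    · rw [cf, cf_nat_zero y h1]
      have h2 : (r : ℝ) - m ≠ 0 := sub_ne_zero.2 (by exact_mod_cast h1.ne)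
      simpa using ⟨h2, ih h1⟩
    · have h2 : r = m := by omega
      subst h2
      rw [cf, sub_self, zero_mul, zero_add, cf_zero_right, Nat.cast_zero, sub_zero]
      refine mul_ne_zero hy (prod_ne_zero_iff.2 fun i hi => sub_ne_zero.2 ?_)
      have h3 := mem_range.1 hi
      exact_mod_cast h3.ne'

lemma cf_poly {r m : ℕ} (hr : r < m) (j : ℕ) : cf (r : ℝ) 0 m j = 0 := by
  have h1 : ∀ m j : ℕ, cf (r : ℝ) 0 m (j + 1) = 0 := by
    intro m
    induction m with
    | zero => intro j; rfl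
    | succ m ih =>
      intro j
      rw [cf, ih j]
      rcases j with _ | j
      · simp
      · rw [ih j]; ring
  rcases j with _ | j
  · exact cf_nat_zero 0 hr
  · exact h1 m j

/-- the `m`-th derivative of `t ^ x * (log t) ^ y` -/
noncomputable def lpd (z : ℝ × ℝ) (m : ℕ) (t : ℝ) : ℝ :=
  ∑ j ∈ range (m + 1), cf z.1 z.2 m j * (t ^ (z.1 - m) * (Real.log t) ^ (z.2 - j))

lemma lpd_zero (z : ℝ × ℝ) (t : ℝ) : lpd z 0 t = t ^ z.1 * (Real.log t) ^ z.2 := by
  unfold lpd
  simp [cf]

lemma lpd_der (z : ℝ × ℝ) (m : ℕ) {t : ℝ} (ht : 1 < t) :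
    HasDerivAt (lpd z m) (lpd z (m + 1) t) t := by
  have ht0 : 0 < t := by linarith
  have hL : 0 < Real.log t := Real.log_pos ht
  set x := z.1 with hx
  set y := z.2 with hy
  set T : ℕ → ℝ := fun j => t ^ (x - ((m + 1 : ℕ) : ℝ)) * (Real.log t) ^ (y - j) with hT
  have h1 : ∀ j : ℕ, HasDerivAt (fun t : ℝ => cf x y m j * (t ^ (x - m) * (Real.log t) ^ (y - j)))
      (cf x y m j * ((x - m) * T j + (y - j) * T (j + 1))) t := by
    intro j
    have h2 : HasDerivAt (fun t : ℝ => t ^ (x - m)) ((x - m) * t ^ (x - m - 1)) t :=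
      Real.hasDerivAt_rpow_const (Or.inl ht0.ne')
    have h3 : HasDerivAt (fun t : ℝ => (Real.log t) ^ (y - j))
        (t⁻¹ * (y - j) * (Real.log t) ^ (y - j - 1)) t :=
      (Real.hasDerivAt_log ht0.ne').rpow_const (Or.inl hL.ne')
    have h4 := (h2.mul h3).const_mul (cf x y m j)
    have e1 : t ^ (x - m - 1) = t ^ (x - ((m + 1 : ℕ) : ℝ)) := by
      congr 1
      push_cast
      ring
    have e2 : t ^ (x - m) * t⁻¹ = t ^ (x - ((m + 1 : ℕ) : ℝ)) := by
      rw [← e1, Real.rpow_sub_one ht0.ne', div_eq_mul_inv]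
    have e3 : (Real.log t) ^ (y - j - 1) = (Real.log t) ^ (y - ((j + 1 : ℕ) : ℝ)) := by
      congr 1
      push_cast
      ring
    have e4 : cf x y m j * ((x - m) * t ^ (x - m - 1) * (Real.log t) ^ (y - j) +
        t ^ (x - m) * (t⁻¹ * (y - j) * (Real.log t) ^ (y - j - 1))) =
        cf x y m j * ((x - m) * T j + (y - j) * T (j + 1)) := by
      rw [hT]
      simp only
      rw [← e3, ← e2, Real.rpow_sub_one ht0.ne' (x - m)]
      ring
    rw [← e4]
    exact h4
  have h5 := HasDerivAt.fun_sum (u := range (m + 1)) (fun j _ => h1 j)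
  have e5 : lpd z (m + 1) t = ∑ j ∈ range (m + 1), cf x y m j * ((x - m) * T j + (y - j) * T (j + 1)) := by
    have f1 : lpd z (m + 1) t = ∑ j ∈ range (m + 1 + 1), cf x y (m + 1) j * T j := rfl
    have f2 : ∑ j ∈ range (m + 1 + 1), (x - m) * cf x y m j * T j =
        ∑ j ∈ range (m + 1), (x - m) * cf x y m j * T j := by
      rw [sum_range_succ, cf_zero_of_lt x y m (m + 1) (by omega)]
      ring
    rw [f1, sum_range_succ']
    have f3 : ∀ j, cf x y (m + 1) (j + 1) * T (j + 1) =
        (x - m) * cf x y m (j + 1) * T (j + 1) + (y - j) * cf x y m j * T (j + 1) := by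
      intro j
      rw [cf]
      ring
    have f4 : cf x y (m + 1) 0 * T 0 = (x - m) * cf x y m 0 * T 0 := by
      rw [cf]
    rw [f4, sum_congr rfl (fun j _ => f3 j), sum_add_distrib, add_right_comm,
      ← sum_range_succ' (fun j => (x - m) * cf x y m j * T j), f2, ← sum_add_distrib]
    refine sum_congr rfl fun j _ => ?_
    ring
  rw [e5]
  exact h5

/-- quotients of lexicographically ordered terms tend to zero -/
lemma tendsto_lex {x y : ℝ} (h : x < 0 ∨ x = 0 ∧ y < 0) :
    Tendsto (fun t : ℝ => t ^ x * (Real.log t) ^ y) atTop (𝓝 0) := by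
  rcases h with h | ⟨rfl, h⟩
  · have h1 := isLittleO_log_rpow_rpow_atTop y (show (0 : ℝ) < -x / 2 by linarith)
    have h2 : Tendsto (fun t : ℝ => t ^ (x / 2)) atTop (𝓝 0) := by
      have := tendsto_rpow_neg_atTop (show (0 : ℝ) < -x / 2 by linarith)
      refine this.congr fun t => ?_
      congr 1
      ring
    have h3 := h1.tendsto_div_nhds_zero
    have h4 := h3.mul h2
    rw [mul_zero] at h4
    refine h4.congr' ?_
    filter_upwards [eventually_gt_atTop (0 : ℝ)] with t ht
    rw [div_mul_eq_mul_div, div_eq_iff (Real.rpow_pos_of_pos ht _).ne', mul_comm (t ^ x), mul_assoc,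
      ← Real.rpow_add ht]
    congr 2
    ring
  · have h1 : Tendsto (fun t : ℝ => (Real.log t) ^ y) atTop (𝓝 0) := by
      have h2 := (tendsto_rpow_neg_atTop (show (0 : ℝ) < -y by linarith)).comp Real.tendsto_log_atTop
      refine h2.congr fun t => ?_
      simp
    refine h1.congr fun t => ?_
    rw [Real.rpow_zero, one_mul]

/-- one term relative to another one -/
lemma tendsto_ratio (x y x' y' c : ℝ) (h : c = 0 ∨ x < x' ∨ x = x' ∧ y < y') :
    Tendsto (fun t : ℝ => c * (t ^ x * (Real.log t) ^ y) / (t ^ x' * (Real.log t) ^ y')) atTop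
      (𝓝 0) := by
  rcases h with rfl | h
  · simp
  · have h1 : Tendsto (fun t : ℝ => c * (t ^ (x - x') * (Real.log t) ^ (y - y'))) atTop (𝓝 (c * 0)) :=
      (tendsto_lex (by
        rcases h with h | ⟨h, h2⟩
        · left; linarith
        · right; exact ⟨by linarith, by linarith⟩)).const_mul c
    rw [mul_zero] at h1
    refine h1.congr' ?_
    filter_upwards [eventually_gt_atTop (1 : ℝ)] with t ht
    have ht0 : 0 < t := by linarith
    have hL : 0 < Real.log t := Real.log_pos ht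
    rw [Real.rpow_sub ht0, Real.rpow_sub hL]
    have := Real.rpow_pos_of_pos ht0 x'
    have := Real.rpow_pos_of_pos hL y'
    field_simp

lemma tendsto_ratio_self (x y c : ℝ) :
    Tendsto (fun t : ℝ => c * (t ^ x * (Real.log t) ^ y) / (t ^ x * (Real.log t) ^ y)) atTop
      (𝓝 c) := by
  refine tendsto_const_nhds.congr' ?_
  filter_upwards [eventually_gt_atTop (1 : ℝ)] with t ht
  have ht0 : 0 < t := by linarith
  have hL : 0 < Real.log t := Real.log_pos ht
  have := Real.rpow_pos_of_pos ht0 x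
  have := Real.rpow_pos_of_pos hL y
  field_simp

end Pool.Agent.Y719.LP
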