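import Pool.Agent.TH915.PW.Exp

set_option autoImplicit false

/-!
The exponential sum bound of `Pool/Agent/TH915/PW/Exp.lean` with the average over the shifts.
-/

namespace Pool.Agent.Y719.LP

open Finset
open Pool.Agent.TH915.PW
open Pool.Agent.H469R2.NK (e norm_e e_add conj_e vdcH kusmin_landau_anti norm_sum_neg Av Av_le
  Cq Cq_pos iterate harm_le)

/-- The exponential sum bound for positive frequencies, with the mean over the shifts. -/
theorem exp_bound_mean {k : ℕ} {A B lo hi : ℝ} {φ : ℕ → ℝ → ℝ} (hlo : 0 < lo) (hhi : 0 ≤ hi)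
    (θ : ℝ) (hθ : 0 < θ) (h : Hy k A B lo hi φ) (u : ℝ) (N L H : ℕ) (hN : 1 ≤ N) (hL : L ≤ N)
    (hu : A ≤ u) (huL : u + L ≤ B) (hH : 1 ≤ H) (hHN : H ≤ N)
    (hup : 2 * (θ * (hi * (H : ℝ) ^ k)) ≤ 1) :
    (‖∑ n ∈ range L, e (θ * φ 0 (u + n))‖ / N) ^ (2 ^ k) ≤
      Cq k * (1 / H + 2 / (θ * lo) / N * ((1 + Real.log H) / H) ^ k) := by
  have hN' : (1 : ℝ) ≤ N := by exact_mod_cast hN
  have hH' : (1 : ℝ) ≤ H := by exact_mod_cast hH
  have hL' : (L : ℝ) ≤ N := by exact_mod_cast hL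
  have hHN' : (H : ℝ) ≤ N := by exact_mod_cast hHN
  have hstep : ∀ ls : List ℕ, (‖SD φ θ u L ls‖ / N) ^ 2 ≤
      2 / H + 4 * ((∑ l ∈ Ico 1 H, ‖SD φ θ u L (l :: ls)‖ / N) / H) := by
    intro ls
    have h := SD_sq φ θ u L H ls
    set Sg := ∑ l ∈ Ico 1 H, ‖SD φ θ u L (l :: ls)‖ with hSg
    have hSg0 : 0 ≤ Sg := sum_nonneg fun _ _ => norm_nonneg _
    have h2 : (H : ℝ) * ‖SD φ θ u L ls‖ ^ 2 ≤ (2 * N) * (N + 2 * Sg) := by
      refine h.trans ?_
      have : (L : ℝ) + H ≤ 2 * N := by linarith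
      gcongr
    rw [← sum_div, ← hSg]
    have e1 : 2 / (H : ℝ) + 4 * (Sg / N / H) = ((2 * N) * (N + 2 * Sg)) / (H * N ^ 2) := by
      field_simp
      ring
    rw [e1, div_pow, div_le_div_iff₀ (by positivity) (by positivity)]
    calc ‖SD φ θ u L ls‖ ^ 2 * (H * N ^ 2) = ((H : ℝ) * ‖SD φ θ u L ls‖ ^ 2) * N ^ 2 := by ring
      _ ≤ _ := by gcongr
  have hit := iterate hH (fun ls => ‖SD φ θ u L ls‖ / N) (fun ls => by positivity) hstep k []
  have hSS : ∑ n ∈ range L, e (θ * φ 0 (u + n)) = SD φ θ u L [] := by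
    unfold SD
    simp only [List.sum_nil, Nat.sub_zero]
    rfl
  rw [hSS]
  refine hit.trans ?_
  have hC := Cq_pos k
  gcongr
  have h1 := Av_le (H := H) (T := fun ls => ‖SD φ θ u L ls‖ / N)
    (κ := 2 / (θ * lo) / N) k (by
      intro ls hlen hent
      have hpos : 0 < ls.prod := List.prod_pos fun l hl => (hent l hl).1
      have hle : ls.prod ≤ H ^ k := by
        have := List.prod_le_pow_card ls H (fun l hl => (hent l hl).2.le)
        rwa [hlen] at this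
      have hle' : ((ls.prod : ℕ) : ℝ) ≤ (H : ℝ) ^ k := by exact_mod_cast hle
      have h1 := SD_le hlo θ hθ h u L hu huL ls hpos hlen (by
        refine le_trans ?_ hup
        gcongr)
      have hP : (0 : ℝ) < (ls.prod : ℕ) := by exact_mod_cast hpos
      calc ‖SD φ θ u L ls‖ / N ≤ (2 / (θ * lo * (ls.prod : ℕ))) / N := by
            gcongr
        _ = _ := by field_simp) k [] (by simp) (by simp)
  have h2 : (∑ l ∈ Ico 1 H, (1 : ℝ) / l) / H ≤ (1 + Real.log H) / H :=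
    div_le_div_of_nonneg_right (harm_le H) (by linarith)
  have h20 : 0 ≤ (∑ l ∈ Ico 1 H, (1 : ℝ) / l) / H := by positivity
  have h4 : 0 ≤ 2 / (θ * lo) / (N : ℝ) := by positivity
  calc Av H (fun ls => ‖SD φ θ u L ls‖ / N) k [] ≤
        2 / (θ * lo) / N * ((∑ l ∈ Ico 1 H, (1 : ℝ) / l) / H) ^ k / (([] : List ℕ).prod : ℕ) := h1
    _ = 2 / (θ * lo) / N * ((∑ l ∈ Ico 1 H, (1 : ℝ) / l) / H) ^ k := by simp
    _ ≤ _ := by gcongr

/-- The same for phases of either sign. -/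
theorem exp_bound_sign {k : ℕ} {A B lo hi : ℝ} {φ : ℕ → ℝ → ℝ} (s : ℝ) (hs : s = 1 ∨ s = -1)
    (hlo : 0 < lo) (hhi : 0 ≤ hi)
    (θ : ℝ) (hθ : 0 < θ) (h : Hy k A B lo hi (fun m t => s * φ m t)) (u : ℝ) (N L H : ℕ)
    (hN : 1 ≤ N) (hL : L ≤ N) (hu : A ≤ u) (huL : u + L ≤ B) (hH : 1 ≤ H) (hHN : H ≤ N)
    (hup : 2 * (θ * (hi * (H : ℝ) ^ k)) ≤ 1) :
    (‖∑ n ∈ range L, e (θ * φ 0 (u + n))‖ / N) ^ (2 ^ k) ≤
      Cq k * (1 / H + 2 / (θ * lo) / N * ((1 + Real.log H) / H) ^ k) := by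
  have h1 := exp_bound_mean hlo hhi θ hθ h u N L H hN hL hu huL hH hHN hup
  rcases hs with rfl | rfl
  · simpa using h1
  · have h2 : ‖∑ n ∈ range L, e (θ * (-1 * φ 0 (u + n)))‖ = ‖∑ n ∈ range L, e (θ * φ 0 (u + n))‖ := by
      rw [← RCLike.norm_conj (∑ n ∈ range L, e (θ * φ 0 (u + n))), map_sum]
      congr 1
      refine sum_congr rfl fun n _ => ?_
      rw [conj_e]
      congr 1
      ring
    rwa [h2] at h1

end Pool.Agent.Y719.LP
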