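import Pool.Agent.TH915.PW.Smooth
import Pool.Agent.Y719.LP.Exp

set_option autoImplicit false

/-! Record gaps around the values of smooth functions of arbitrary order. -/

namespace Pool.Agent.Y719.LP

open Finset Filter
open Pool.Agent.TH915.PW
open Pool.Agent.H469R2.NK (e norm_e e_add Cq Cq_pos)
open Pool.Agent.W147.PS (ff ff_compare ev_pow)

/-- `1 + log M ≤ M ^ τ` for large `M` -/
lemma log_small (τ : ℝ) (hτ : 0 < τ) : ∀ᶠ M : ℝ in atTop, 1 + Real.log M ≤ M ^ τ := by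
  have h1 := (isLittleO_log_rpow_atTop hτ).bound (show (0 : ℝ) < 1 / 2 by norm_num)
  filter_upwards [h1, (tendsto_rpow_atTop hτ).eventually_ge_atTop 2, eventually_ge_atTop (1 : ℝ)]
    with M hM hM2 hM1
  rw [Real.norm_of_nonneg (Real.log_nonneg hM1), Real.norm_of_nonneg (by positivity)] at hM
  linarith

set_option maxHeartbeats 4000000 in
/-- the main theorem for smooth functions -/
theorem smooth_two (k : ℕ) (s : ℝ) (hs : s = 1 ∨ s = -1) (h b1 b2 g : ℝ) (h0 : 0 < h) (h1 : h < 1)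
    (hb1 : b1 - 1 < k * h) (hb2 : k * h < b2) (hg : 0 < g) (φ : ℕ → ℝ → ℝ) (t₀ : ℝ)
    (hder : ∀ m ≤ k + 1, ∀ t, t₀ ≤ t → HasDerivAt (φ m) (φ (m + 1) t) t)
    (hlow : ∀ t, t₀ ≤ t → t ^ (-b1) ≤ s * φ (k + 1) t)
    (hup : ∀ t, t₀ ≤ t → s * φ (k + 1) t ≤ t ^ (-b2))
    (hdec : ∀ t, t₀ ≤ t → s * φ (k + 2) t ≤ 0)
    (hgrow : ∀ t, t₀ ≤ t → t ^ g ≤ φ 0 t) :
    ∃ κ : ℝ, 0 < κ ∧ ∃ δ : ℝ, 0 < δ ∧ ∃ M₀ : ℝ, ∀ M : ℝ, M₀ ≤ M → ∃ n : ℕ, M < n ∧
      (n : ℝ) ≤ M + M ^ (1 - δ) ∧ ∀ q : ℕ, q.Prime → κ * ff M < |(q : ℝ) - φ 0 n| := by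
  have hk0 : (0 : ℝ) ≤ k := Nat.cast_nonneg k
  have hw0 : 0 ≤ k * h := mul_nonneg hk0 h0.le
  have hb20 : 0 < b2 := by linarith
  have hb12 : b2 ≤ b1 := by
    have e1 := (hlow (max t₀ 2) (le_max_left _ _)).trans (hup (max t₀ 2) (le_max_left _ _))
    have e2 : (1 : ℝ) < max t₀ 2 := lt_of_lt_of_le (by norm_num) (le_max_right _ _)
    have e3 := (Real.rpow_le_rpow_left_iff e2).mp e1
    linarith
  have hb10 : 0 < b1 := by linarith
  obtain ⟨g1, hg1⟩ : ∃ g1 : ℝ, g1 = k * h - (b1 - 1) := ⟨_, rfl⟩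
  obtain ⟨g2, hg2⟩ : ∃ g2 : ℝ, g2 = b2 - k * h := ⟨_, rfl⟩
  have hg10 : 0 < g1 := by linarith
  have hg20 : 0 < g2 := by linarith
  obtain ⟨σ, hσ⟩ : ∃ σ : ℝ, σ = min h (g1 / 2) := ⟨_, rfl⟩
  have hσ0 : 0 < σ := by rw [hσ]; exact lt_min h0 (by linarith)
  have hσh : σ ≤ h := by rw [hσ]; exact min_le_left _ _
  have hσg : σ ≤ g1 / 2 := by rw [hσ]; exact min_le_right _ _
  obtain ⟨δ', hδ'⟩ : ∃ δ' : ℝ, δ' = σ / 2 ^ k := ⟨_, rfl⟩
  have hδ'0 : 0 < δ' := by rw [hδ']; positivity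
  have h2k : (1 : ℝ) ≤ 2 ^ k := one_le_pow₀ (by norm_num)
  have hδ'σ : δ' ≤ σ := by rw [hδ']; exact div_le_self hσ0.le h2k
  obtain ⟨δ, hδ⟩ : ∃ δ : ℝ, δ = δ' / 3 := ⟨_, rfl⟩
  have hδ0 : 0 < δ := by rw [hδ]; positivity
  obtain ⟨η, hη⟩ : ∃ η : ℝ, η = min (min (δ' / 12) (g1 / 4)) (min (g2 / 8) g) := ⟨_, rfl⟩
  have hη0 : 0 < η := by
    rw [hη]
    exact lt_min (lt_min (by linarith) (by linarith)) (lt_min (by linarith) hg)
  have hη1 : η ≤ δ' / 12 := by rw [hη]; exact (min_le_left _ _).trans (min_le_left _ _)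
  have hη2 : η ≤ g1 / 4 := by rw [hη]; exact (min_le_left _ _).trans (min_le_right _ _)
  have hη3 : η ≤ g2 / 8 := by rw [hη]; exact (min_le_right _ _).trans (min_le_left _ _)
  have hη4 : η ≤ g := by rw [hη]; exact (min_le_right _ _).trans (min_le_right _ _)
  obtain ⟨τ, hτ⟩ : ∃ τ : ℝ, τ = g1 / (4 * (k + 1)) := ⟨_, rfl⟩
  have hτ0 : 0 < τ := by rw [hτ]; positivity
  have hkτ : k * τ ≤ g1 / 4 := by
    have e1 : τ * (4 * (k + 1)) = g1 := by rw [hτ]; field_simp
    have e2 : τ * (4 * (k + 1)) = 4 * (k * τ) + 4 * τ := by ring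
    linarith
  obtain ⟨κ, hκ, hcrit⟩ := crit_scaled η hη0 (by linarith)
  have hCq := Cq_pos k
  obtain ⟨C₂, hC₂⟩ : ∃ C₂ : ℝ, C₂ = 4 * 3 ^ b1 * 2 ^ k := ⟨_, rfl⟩
  have hC₂0 : 0 < C₂ := by rw [hC₂]; positivity
  obtain ⟨C₁, hC₁⟩ : ∃ C₁ : ℝ, C₁ = (Cq k * (2 + C₂)) ^ ((1 : ℝ) / 2 ^ k) := ⟨_, rfl⟩
  have hC₁0 : 0 < C₁ := by rw [hC₁]; positivity
  refine ⟨κ, hκ, δ, hδ0, ?_⟩
  apply eventually_atTop.mp
  filter_upwards [hcrit, eventually_ge_atTop (4 : ℝ), eventually_ge_atTop t₀,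
    eventually_ge_atTop (2 * t₀),
    ev_pow (1 - δ') (1 - 2 * δ' / 3) (2 * C₁) (by linarith),
    ev_pow (4 * η + k * h - b2) 0 (2 * 2 ^ b2) (by linarith),
    (tendsto_rpow_atTop (show (0 : ℝ) < 1 - δ by linarith)).eventually_ge_atTop 2,
    (tendsto_rpow_atTop h0).eventually_ge_atTop 2,
    ev_pow (1 - δ) 1 2 (by linarith), ev_pow h 1 2 (by linarith), log_small τ hτ0]
    with M hcr hM4 hMt hM2t hp1 hp2 hp3 hp4 hp5 hp6 hp7
  have hM0 : 0 < M := by linarith
  have hM1 : 1 ≤ M := by linarith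
  rw [Real.rpow_one] at hp5 hp6
  set N : ℕ := ⌊M⌋₊ with hN
  have hNM : (N : ℝ) ≤ M := Nat.floor_le hM0.le
  have hMN : M < N + 1 := Nat.lt_floor_add_one _
  have hN2 : M / 2 ≤ N := by linarith
  have hN1 : 1 ≤ N := Nat.le_floor (by simpa using hM1)
  have hN1r : (1 : ℝ) ≤ N := by exact_mod_cast hN1
  have hNt : t₀ ≤ N := by linarith
  set L : ℕ := ⌊M ^ (1 - δ)⌋₊ with hL
  have hLM : (L : ℝ) ≤ M ^ (1 - δ) := Nat.floor_le (by positivity)
  have hML : M ^ (1 - δ) / 2 ≤ L := by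
    have := Nat.lt_floor_add_one (M ^ (1 - δ))
    linarith
  have hLN : L ≤ N := by
    have : (L : ℝ) ≤ N := by linarith
    exact_mod_cast this
  have hLpos : 0 < L := by
    have : (0 : ℝ) < L := by linarith
    exact_mod_cast this
  set H : ℕ := ⌊M ^ h⌋₊ with hH
  have hHM : (H : ℝ) ≤ M ^ h := Nat.floor_le (by positivity)
  have hMH : M ^ h / 2 ≤ H := by
    have := Nat.lt_floor_add_one (M ^ h)
    linarith
  have hH1 : 1 ≤ H := by
    have : (0 : ℝ) < H := by linarith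
    exact_mod_cast this
  have hH1r : (1 : ℝ) ≤ H := by exact_mod_cast hH1
  have hHN : H ≤ N := by
    have : (H : ℝ) ≤ N := by linarith
    exact_mod_cast this
  -- the phase
  have hHy : Hy k (N : ℝ) (3 * N) ((3 * N : ℝ) ^ (-b1)) ((N : ℝ) ^ (-b2))
      (fun m t => s * φ m t) := by
    refine ⟨?_, ?_, ?_, ?_⟩
    · intro m hm t ht
      exact (hder m hm t (hNt.trans ht.1)).const_mul s
    · intro t ht
      refine le_trans ?_ (hlow t (hNt.trans ht.1))
      apply Real.rpow_le_rpow_of_nonpos (by linarith [ht.1]) ht.2 (by linarith)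
    · intro t ht
      refine (hup t (hNt.trans ht.1)).trans ?_
      apply Real.rpow_le_rpow_of_nonpos (by linarith) ht.1 (by linarith)
    · intro t ht
      exact hdec t (hNt.trans ht.1)
  have hlo0 : 0 < (3 * N : ℝ) ^ (-b1) := by positivity
  obtain ⟨i, hi, hi2⟩ := hcr ℕ (range L) (fun n => φ 0 ((N : ℝ) + 1 + n))
    (by rw [Finset.nonempty_range_iff]; omega) (by
      intro n _
      have hn0 : (0 : ℝ) ≤ n := Nat.cast_nonneg n
      have e1 := hgrow ((N : ℝ) + 1 + n) (by linarith)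
      refine le_trans ?_ e1
      calc M ^ η ≤ M ^ g := Real.rpow_le_rpow_of_exponent_le hM1 hη4
        _ ≤ _ := Real.rpow_le_rpow hM0.le (by linarith) hg.le) (by
      intro q j hq hqX hj hjX
      have hq0 : (0 : ℝ) < q := by exact_mod_cast hq
      have hj1 : (1 : ℝ) ≤ j := by exact_mod_cast hj
      have hq1 : (1 : ℝ) ≤ q := by exact_mod_cast hq
      set θ : ℝ := (j : ℝ) / q with hθ
      have hθ0 : 0 < θ := by positivity
      have hθup : θ ≤ M ^ (4 * η) := (div_le_self (by linarith) hq1).trans hjX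
      have hθlow : 1 / θ ≤ M ^ η := by
        rw [hθ, one_div_div]
        exact (div_le_self hq0.le hj1).trans hqX
      have h3N : (N : ℝ) ^ (-b2) ≤ 2 ^ b2 * M ^ (-b2) := by
        have e1 : (N : ℝ) ^ (-b2) ≤ (M / 2) ^ (-b2) :=
          Real.rpow_le_rpow_of_nonpos (by linarith) hN2 (by linarith)
        refine e1.trans (le_of_eq ?_)
        rw [Real.div_rpow hM0.le (by norm_num), div_eq_mul_inv, mul_comm, ← Real.rpow_neg (by norm_num),
          neg_neg]
      have hHk : (H : ℝ) ^ k ≤ M ^ (k * h) := by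
        calc (H : ℝ) ^ k ≤ (M ^ h) ^ k := pow_le_pow_left₀ (Nat.cast_nonneg _) hHM k
          _ = M ^ (k * h) := by rw [← Real.rpow_natCast, ← Real.rpow_mul hM0.le, mul_comm]
      have hcond : 2 * (θ * ((N : ℝ) ^ (-b2) * (H : ℝ) ^ k)) ≤ 1 := by
        calc 2 * (θ * ((N : ℝ) ^ (-b2) * (H : ℝ) ^ k)) ≤
            2 * (M ^ (4 * η) * ((2 ^ b2 * M ^ (-b2)) * M ^ (k * h))) := by gcongr
          _ = 2 * 2 ^ b2 * (M ^ (4 * η) * M ^ (k * h) * M ^ (-b2)) := by ring
          _ = 2 * 2 ^ b2 * M ^ (4 * η + k * h - b2) := by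
              rw [sub_eq_add_neg, Real.rpow_add hM0, Real.rpow_add hM0]
          _ ≤ 1 := by
              rw [Real.rpow_zero] at hp2
              exact hp2
      have hexp := exp_bound_sign s hs hlo0 (by positivity) θ hθ0 hHy ((N : ℝ) + 1) N L H hN1 hLN
        (by linarith) (by
          have : (L : ℝ) ≤ N := by exact_mod_cast hLN
          linarith) hH1 hHN hcond
      have hb : Cq k * (1 / H + 2 / (θ * (3 * N : ℝ) ^ (-b1)) / N * ((1 + Real.log H) / H) ^ k) ≤
          (Cq k * (2 + C₂)) * M ^ (-σ) := by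
        have e1 : 1 / (H : ℝ) ≤ 2 * M ^ (-σ) := by
          have e0 : M ^ (-h) ≤ M ^ (-σ) := Real.rpow_le_rpow_of_exponent_le hM1 (by linarith)
          have e2 : 1 / (H : ℝ) ≤ 2 * M ^ (-h) := by
            rw [Real.rpow_neg hM0.le, div_le_iff₀ (by linarith : (0 : ℝ) < H)]
            have h5 : (0 : ℝ) < M ^ h := by positivity
            calc (1 : ℝ) = 2 * (M ^ h)⁻¹ * (M ^ h / 2) := by field_simp
              _ ≤ _ := by gcongr
          linarith
        have e2 : 2 / (θ * (3 * N : ℝ) ^ (-b1)) / N * ((1 + Real.log H) / H) ^ k ≤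
            C₂ * M ^ (-σ) := by
          have e3 : 2 / (θ * (3 * N : ℝ) ^ (-b1)) / N * ((1 + Real.log H) / H) ^ k =
              2 * (1 / θ) * (3 * N : ℝ) ^ b1 * (1 / N) * ((1 + Real.log H) / H) ^ k := by
            rw [Real.rpow_neg (by positivity)]
            field_simp
          rw [e3]
          have e4 : (3 * N : ℝ) ^ b1 ≤ 3 ^ b1 * M ^ b1 := by
            calc (3 * N : ℝ) ^ b1 ≤ (3 * M) ^ b1 :=
                  Real.rpow_le_rpow (by positivity) (by linarith) (by linarith)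
              _ = 3 ^ b1 * M ^ b1 := Real.mul_rpow (by norm_num) hM0.le
          have e5 : 1 / (N : ℝ) ≤ 2 * M ^ (-1 : ℝ) := by
            rw [Real.rpow_neg_one, div_le_iff₀ (by linarith : (0 : ℝ) < N)]
            calc (1 : ℝ) = 2 * M⁻¹ * (M / 2) := by field_simp
              _ ≤ _ := by gcongr
          have e6 : (1 + Real.log H) / H ≤ 2 * M ^ (τ - h) := by
            have f1 : 1 + Real.log H ≤ M ^ τ := by
              refine le_trans ?_ hp7
              have := Real.log_le_log (by linarith) (show (H : ℝ) ≤ M by linarith)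
              linarith
            have f0 : (0 : ℝ) < M ^ h := by positivity
            rw [div_le_iff₀ (by linarith : (0 : ℝ) < H), sub_eq_add_neg, Real.rpow_add hM0,
              Real.rpow_neg hM0.le]
            calc 1 + Real.log H ≤ M ^ τ := f1
              _ = 2 * (M ^ τ * (M ^ h)⁻¹) * (M ^ h / 2) := by field_simp
              _ ≤ _ := by gcongr
          have e60 : 0 ≤ (1 + Real.log H) / H := by
            have := Real.log_nonneg hH1r
            positivity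
          have e7 : ((1 + Real.log H) / H) ^ k ≤ 2 ^ k * M ^ (k * (τ - h)) := by
            calc ((1 + Real.log H) / H) ^ k ≤ (2 * M ^ (τ - h)) ^ k :=
                  pow_le_pow_left₀ e60 e6 k
              _ = 2 ^ k * M ^ (k * (τ - h)) := by
                  rw [mul_pow, ← Real.rpow_natCast (M ^ (τ - h)), ← Real.rpow_mul hM0.le,
                    mul_comm (τ - h)]
          have e70 : 0 ≤ ((1 + Real.log H) / H) ^ k := pow_nonneg e60 k
          calc 2 * (1 / θ) * (3 * N : ℝ) ^ b1 * (1 / N) * ((1 + Real.log H) / H) ^ k ≤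
              2 * M ^ η * (3 ^ b1 * M ^ b1) * (2 * M ^ (-1 : ℝ)) * (2 ^ k * M ^ (k * (τ - h))) := by
                gcongr
            _ = C₂ * (M ^ η * M ^ b1 * M ^ (-1 : ℝ) * M ^ (k * (τ - h))) := by rw [hC₂]; ring
            _ = C₂ * M ^ (η + b1 + -1 + k * (τ - h)) := by
                rw [Real.rpow_add hM0, Real.rpow_add hM0, Real.rpow_add hM0]
            _ ≤ C₂ * M ^ (-σ) := by
                apply mul_le_mul_of_nonneg_left _ hC₂0.le
                apply Real.rpow_le_rpow_of_exponent_le hM1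
                have e8 : (k : ℝ) * (τ - h) = k * τ - k * h := by ring
                rw [e8]
                linarith
        calc Cq k * (1 / H + 2 / (θ * (3 * N : ℝ) ^ (-b1)) / N * ((1 + Real.log H) / H) ^ k) ≤
            Cq k * (2 * M ^ (-σ) + C₂ * M ^ (-σ)) := by gcongr
          _ = _ := by ring
      have hroot := root_le _ _ k (by positivity) (hexp.trans hb)
      have hr2 : ((Cq k * (2 + C₂)) * M ^ (-σ)) ^ ((1 : ℝ) / 2 ^ k) = C₁ * M ^ (-δ') := by
        rw [Real.mul_rpow (by positivity) (by positivity), ← Real.rpow_mul hM0.le, hC₁, hδ']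
        congr 2
        ring
      rw [hr2, div_le_iff₀ (by linarith : (0 : ℝ) < N)] at hroot
      have hcard : ((range L).card : ℝ) = L := by rw [card_range]
      rw [hcard]
      have hfin : C₁ * M ^ (-δ') * N ≤ L * M ^ (-(4 * η)) := by
        calc C₁ * M ^ (-δ') * N ≤ C₁ * M ^ (-δ') * M := by gcongr
          _ = C₁ * M ^ (1 - δ') := by
              rw [mul_assoc]
              congr 1
              rw [sub_eq_neg_add, Real.rpow_add hM0, Real.rpow_one]
          _ ≤ M ^ (1 - 2 * δ' / 3) / 2 := by linarith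
          _ ≤ M ^ (1 - δ + -(4 * η)) / 2 := by
              apply div_le_div_of_nonneg_right _ (by norm_num)
              apply Real.rpow_le_rpow_of_exponent_le hM1
              rw [hδ]
              linarith
          _ = (M ^ (1 - δ) / 2) * M ^ (-(4 * η)) := by
              rw [Real.rpow_add hM0]
              ring
          _ ≤ _ := by gcongr
      exact hroot.trans hfin)
  refine ⟨N + 1 + i, ?_, ?_, ?_⟩
  · push_cast
    have hn0 : (0 : ℝ) ≤ i := Nat.cast_nonneg i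
    linarith
  · rw [Finset.mem_range] at hi
    have : ((N + 1 + i : ℕ) : ℝ) ≤ ((N + L : ℕ) : ℝ) := by exact_mod_cast (by omega)
    push_cast at this ⊢
    linarith
  · intro q hq
    have := hi2 q hq
    push_cast
    exact this

end Pool.Agent.Y719.LP
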