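import Pool.Agent.Y719.LP.Deriv
import Pool.Agent.Y719.LP.Smooth

set_option autoImplicit false

/-! Record gaps around the values of finite sums of the functions `a * t ^ x * (log t) ^ y`. -/

namespace Pool.Agent.Y719.LP

open Finset Filter Topology
open Pool.Agent.W147.PS (ff ff_compare ev_pow)

/-- the sum and its derivatives -/
noncomputable def fs (F : Finset (ℝ × ℝ)) (a : ℝ × ℝ → ℝ) (m : ℕ) (t : ℝ) : ℝ :=
  ∑ z ∈ F, a z * lpd z m t

lemma fs_der (F : Finset (ℝ × ℝ)) (a : ℝ × ℝ → ℝ) (m : ℕ) {t : ℝ} (ht : 1 < t) :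
    HasDerivAt (fs F a m) (fs F a (m + 1) t) t :=
  HasDerivAt.fun_sum (u := F) (fun z _ => (lpd_der z m ht).const_mul (a z))

lemma fs_eq (F : Finset (ℝ × ℝ)) (a : ℝ × ℝ → ℝ) (m : ℕ) (t : ℝ) :
    fs F a m t = ∑ p ∈ F ×ˢ range (m + 1), (a p.1 * cf p.1.1 p.1.2 m p.2) *
      (t ^ (p.1.1 - m) * (Real.log t) ^ (p.1.2 - p.2)) := by
  unfold fs lpd
  rw [sum_product]
  refine sum_congr rfl fun z _ => ?_
  rw [mul_sum]
  refine sum_congr rfl fun j _ => ?_
  ring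

lemma tendsto_fs (F : Finset (ℝ × ℝ)) (a : ℝ × ℝ → ℝ) (m : ℕ) {z0 : ℝ × ℝ} (hz0 : z0 ∈ F)
    {j0 : ℕ} (hj0 : j0 ≤ m) (h : ∀ z ∈ F, ∀ j ≤ m, (z, j) ≠ (z0, j0) →
      a z * cf z.1 z.2 m j = 0 ∨ z.1 < z0.1 ∨ z.1 = z0.1 ∧ z.2 - j < z0.2 - j0) :
    Tendsto (fun t => fs F a m t / (t ^ (z0.1 - m) * (Real.log t) ^ (z0.2 - j0))) atTop
      (𝓝 (a z0 * cf z0.1 z0.2 m j0)) := by
  classical
  have h1 : Tendsto (fun t => ∑ p ∈ F ×ˢ range (m + 1), (a p.1 * cf p.1.1 p.1.2 m p.2) *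
      (t ^ (p.1.1 - m) * (Real.log t) ^ (p.1.2 - p.2)) /
        (t ^ (z0.1 - m) * (Real.log t) ^ (z0.2 - j0))) atTop
      (𝓝 (∑ p ∈ F ×ˢ range (m + 1), if p = (z0, j0) then a z0 * cf z0.1 z0.2 m j0 else 0)) := by
    refine tendsto_finsetSum _ fun p hp => ?_
    rw [mem_product, mem_range] at hp
    split_ifs with hp0
    · rw [hp0]
      exact tendsto_ratio_self _ _ _
    · refine tendsto_ratio _ _ _ _ _ ?_
      rcases h p.1 hp.1 p.2 (by omega) (by rwa [Prod.mk.eta]) with h2 | h2 | ⟨h2, h3⟩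
      · exact Or.inl h2
      · right; left; linarith
      · right; right; exact ⟨by rw [h2], h3⟩
  rw [Finset.sum_ite_eq', if_pos (mem_product.2 ⟨hz0, mem_range.2 (by omega)⟩)] at h1
  refine h1.congr fun t => ?_
  rw [fs_eq, sum_div]

/-- powers of the logarithm are small -/
lemma log_le (w ε : ℝ) (hε : 0 < ε) : ∀ᶠ t : ℝ in atTop, (Real.log t) ^ w ≤ t ^ ε := by
  have h1 := (isLittleO_log_rpow_rpow_atTop w hε).bound (show (0 : ℝ) < 1 by norm_num)
  filter_upwards [h1, eventually_gt_atTop (1 : ℝ)] with t ht ht1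
  have hL : 0 < Real.log t := Real.log_pos ht1
  have ht0 : 0 < t := by linarith
  rwa [Real.norm_of_nonneg (Real.rpow_pos_of_pos hL _).le,
    Real.norm_of_nonneg (Real.rpow_pos_of_pos ht0 _).le, one_mul] at ht

lemma log_ge (w ε : ℝ) (hε : 0 < ε) : ∀ᶠ t : ℝ in atTop, t ^ (-ε) ≤ (Real.log t) ^ w := by
  filter_upwards [log_le (-w) ε hε, eventually_gt_atTop (1 : ℝ)] with t ht ht1
  have hL : 0 < Real.log t := Real.log_pos ht1
  have ht0 : 0 < t := by linarith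
  rw [Real.rpow_neg ht0.le, inv_le_comm₀ (Real.rpow_pos_of_pos ht0 _) (Real.rpow_pos_of_pos hL _),
    ← Real.rpow_neg hL.le]
  exact ht

lemma const_le (C ε : ℝ) (hε : 0 < ε) : ∀ᶠ t : ℝ in atTop, C ≤ t ^ ε :=
  (tendsto_rpow_atTop hε).eventually_ge_atTop C

lemma const_ge (C ε : ℝ) (hC : 0 < C) (hε : 0 < ε) : ∀ᶠ t : ℝ in atTop, t ^ (-ε) ≤ C := by
  filter_upwards [const_le C⁻¹ ε hε, eventually_gt_atTop (1 : ℝ)] with t ht ht1
  have ht0 : 0 < t := by linarith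
  rw [Real.rpow_neg ht0.le, inv_le_comm₀ (Real.rpow_pos_of_pos ht0 _) hC]
  exact ht

/-- a term which is not a monomial of integral degree -/
def NonPoly (z : ℝ × ℝ) : Prop := (∀ m : ℕ, z.1 ≠ m) ∨ z.2 ≠ 0

/-- record gaps around the values of finite sums of `a * t ^ x * (log t) ^ y` -/
theorem logpower_main (F : Finset (ℝ × ℝ)) (a : ℝ × ℝ → ℝ)
    (hinf : Tendsto (fun t : ℝ => ∑ z ∈ F, a z * t ^ z.1 * (Real.log t) ^ z.2) atTop atTop)
    (hterm : ∃ z ∈ F, a z ≠ 0 ∧ 0 < z.1 ∧ NonPoly z) :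
    ∃ κ : ℝ, 0 < κ ∧ ∃ δ : ℝ, 0 < δ ∧ ∃ M₀ : ℝ, ∀ M : ℝ, M₀ ≤ M → ∃ n : ℕ, M < n ∧
      (n : ℝ) ≤ M + M ^ (1 - δ) ∧ ∀ q : ℕ, q.Prime →
        κ * ff M < |(q : ℝ) - ∑ z ∈ F, a z * (n : ℝ) ^ z.1 * (Real.log n) ^ z.2| := by
  classical
  obtain ⟨zz, hzz, hzz1, hzz2, hzz3⟩ := hterm
  -- the leading term which is not a monomial
  obtain ⟨z0, hz0, hmax⟩ := Finset.exists_max_image (F.filter fun z => a z ≠ 0 ∧ NonPoly z)
    (fun z => toLex z) ⟨zz, by rw [mem_filter]; exact ⟨hzz, hzz1, hzz3⟩⟩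
  rw [mem_filter] at hz0
  obtain ⟨hz0F, hz0a, hz0n⟩ := hz0
  have hx0 : 0 < z0.1 := by
    have h1 := hmax zz (by rw [mem_filter]; exact ⟨hzz, hzz1, hzz3⟩)
    rw [Prod.Lex.toLex_le_toLex] at h1
    rcases h1 with h1 | ⟨h1, _⟩ <;> linarith
  -- the order
  obtain ⟨k, hk1, hk⟩ : ∃ k : ℕ, 1 ≤ k ∧ ∀ z ∈ F, z.1 ≤ k := by
    refine ⟨F.sup (fun z => ⌈z.1⌉₊) + 1, by omega, fun z hz => ?_⟩
    have h1 : ⌈z.1⌉₊ ≤ F.sup (fun z => ⌈z.1⌉₊) := Finset.le_sup (f := fun z : ℝ × ℝ => ⌈z.1⌉₊) hz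
    have h2 : (⌈z.1⌉₊ : ℝ) ≤ (F.sup (fun z => ⌈z.1⌉₊) : ℕ) := by exact_mod_cast h1
    push_cast
    linarith [Nat.le_ceil z.1]
  have hk1r : (1 : ℝ) ≤ k := by exact_mod_cast hk1
  obtain ⟨j0, hj0⟩ : ∃ j0 : ℕ, j0 = if ∃ r : ℕ, z0.1 = r then 1 else 0 := ⟨_, rfl⟩
  have hj01 : j0 ≤ 1 := by rw [hj0]; split_ifs <;> omega
  -- comparison of the terms
  have hcmp : ∀ m : ℕ, k + 1 ≤ m → ∀ z ∈ F, ∀ j ≤ m, (z, j) ≠ (z0, j0) →
      a z * cf z.1 z.2 m j = 0 ∨ z.1 < z0.1 ∨ z.1 = z0.1 ∧ z.2 - j < z0.2 - j0 := by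
    intro m hm z hz j hj hne
    have hlt : ∀ r : ℕ, z.1 = r → r < m := by
      intro r hr
      have h1 := hk z hz
      rw [hr] at h1
      have h2 : r ≤ k := by exact_mod_cast h1
      omega
    by_cases ha : a z = 0
    · left; rw [ha, zero_mul]
    by_cases hn : NonPoly z
    · have h1 := hmax z (by rw [mem_filter]; exact ⟨hz, ha, hn⟩)
      rw [Prod.Lex.toLex_le_toLex] at h1
      rcases h1 with h1 | ⟨h1, h2⟩
      · exact Or.inr (Or.inl h1)
      · by_cases hr : ∃ r : ℕ, z0.1 = r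
        · rw [if_pos hr] at hj0
          obtain ⟨r, hr⟩ := hr
          rcases Nat.eq_zero_or_pos j with hj1 | hj1
          · left
            rw [hj1, h1, hr, cf_nat_zero _ (hlt r (h1.trans hr)), mul_zero]
          · right; right
            refine ⟨h1, ?_⟩
            rw [hj0, Nat.cast_one]
            have hjr : (1 : ℝ) ≤ j := by exact_mod_cast hj1
            rcases h2.lt_or_eq with h3 | h3
            · linarith
            · have h4 : z = z0 := Prod.ext h1 h3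
              have h5 : j ≠ 1 := fun h => hne (by rw [h4, h, hj0])
              have h6 : (2 : ℝ) ≤ j := by exact_mod_cast (by omega : 2 ≤ j)
              linarith
        · rw [if_neg hr] at hj0
          right; right
          refine ⟨h1, ?_⟩
          rw [hj0, Nat.cast_zero, sub_zero]
          have hjr : (0 : ℝ) ≤ j := Nat.cast_nonneg j
          rcases h2.lt_or_eq with h3 | h3
          · linarith
          · have h4 : z = z0 := Prod.ext h1 h3
            have h5 : j ≠ 0 := fun h => hne (by rw [h4, h, hj0])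
            have h6 : (1 : ℝ) ≤ j := by exact_mod_cast (by omega : 1 ≤ j)
            linarith
    · left
      unfold NonPoly at hn
      push Not at hn
      obtain ⟨⟨r, hr⟩, h2⟩ := hn
      rw [hr, h2, cf_poly (hlt r hr), mul_zero]
  -- the leading coefficient
  have hx0k : z0.1 ≤ k := hk z0 hz0F
  obtain ⟨C, hC⟩ : ∃ C : ℝ, C = a z0 * cf z0.1 z0.2 (k + 1) j0 := ⟨_, rfl⟩
  have hCne : C ≠ 0 := by
    rw [hC]
    refine mul_ne_zero hz0a ?_
    by_cases hr : ∃ r : ℕ, z0.1 = r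
    · rw [if_pos hr] at hj0
      obtain ⟨r, hr⟩ := hr
      rcases hz0n with h1 | h1
      · exact absurd hr (h1 r)
      · rw [hj0, hr]
        refine cf_nat_one _ h1 _ ?_
        rw [hr] at hx0k
        have h2 : r ≤ k := by exact_mod_cast hx0k
        omega
    · rw [if_neg hr] at hj0
      push Not at hr
      rw [hj0]
      exact cf_ne _ _ hr _
  have hC2 : a z0 * cf z0.1 z0.2 (k + 1 + 1) j0 = (z0.1 - (k + 1)) * C := by
    rw [hC]
    by_cases hr : ∃ r : ℕ, z0.1 = r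
    · rw [if_pos hr] at hj0
      obtain ⟨r, hr⟩ := hr
      rw [hj0, hr]
      have h2 : cf (r : ℝ) z0.2 (k + 1) 0 = 0 := by
        refine cf_nat_zero _ ?_
        rw [hr] at hx0k
        have h2 : r ≤ k := by exact_mod_cast hx0k
        omega
      rw [cf, h2]
      push_cast
      ring
    · rw [if_neg hr] at hj0
      rw [hj0, cf]
      push_cast
      ring
  obtain ⟨w, hw⟩ : ∃ w : ℝ, w = z0.2 - j0 := ⟨_, rfl⟩
  have hT1 := tendsto_fs F a (k + 1) hz0F (by omega) (hcmp (k + 1) le_rfl)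
  have hT2 := tendsto_fs F a (k + 1 + 1) hz0F (by omega) (hcmp (k + 1 + 1) (by omega))
  rw [← hC, ← hw] at hT1
  rw [hC2, ← hw] at hT2
  -- the sign
  obtain ⟨s, hs, hsC⟩ : ∃ s : ℝ, (s = 1 ∨ s = -1) ∧ 0 < s * C := by
    rcases lt_or_gt_of_ne hCne with h | h
    · exact ⟨-1, Or.inr rfl, by linarith⟩
    · exact ⟨1, Or.inl rfl, by linarith⟩
  have hT1s := hT1.const_mul s
  have hT2s := hT2.const_mul s
  -- parameters
  obtain ⟨α, hα⟩ : ∃ α : ℝ, α = k + 1 - z0.1 := ⟨_, rfl⟩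
  have hα1 : 1 ≤ α := by linarith
  have hα2 : α < k + 1 := by linarith
  obtain ⟨v, hv⟩ : ∃ v : ℝ, v = min α k := ⟨_, rfl⟩
  have hv1 : v ≤ α := by rw [hv]; exact min_le_left _ _
  have hv2 : v ≤ k := by rw [hv]; exact min_le_right _ _
  have hv3 : α - 1 < v := by rw [hv]; exact lt_min (by linarith) (by linarith)
  obtain ⟨W, hW⟩ : ∃ W : ℝ, W = (α - 1 + v) / 2 := ⟨_, rfl⟩
  obtain ⟨ε, hε⟩ : ∃ ε : ℝ, ε = (v - (α - 1)) / 8 := ⟨_, rfl⟩
  have hε0 : 0 < ε := by linarith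
  have hkne : (k : ℝ) ≠ 0 := by linarith
  have hWk : k * (W / k) = W := by field_simp
  -- eventual inequalities
  have hev : ∀ᶠ t : ℝ in atTop, 1 < t ∧ t ^ (-(α + 2 * ε)) ≤ s * fs F a (k + 1) t ∧
      s * fs F a (k + 1) t ≤ t ^ (-(α - 2 * ε)) ∧ s * fs F a (k + 1 + 1) t ≤ 0 := by
    have e1 : s * C / 2 < s * C := by linarith
    have e2 : s * C < 2 * (s * C) := by linarith
    have e3 : s * ((z0.1 - (k + 1)) * C) < 0 := by
      have : z0.1 - (k + 1) < 0 := by linarith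
      calc s * ((z0.1 - (k + 1)) * C) = (z0.1 - (k + 1)) * (s * C) := by ring
        _ < 0 := mul_neg_of_neg_of_pos this hsC
    filter_upwards [hT1s.eventually (lt_mem_nhds e1), hT1s.eventually (gt_mem_nhds e2),
      hT2s.eventually (gt_mem_nhds e3), eventually_gt_atTop (1 : ℝ), log_le w ε hε0, log_ge w ε hε0,
      const_le (2 * (s * C)) ε hε0, const_ge (s * C / 2) ε (by linarith) hε0]
      with t h1 h2 h3 h4 h5 h6 h7 h8
    have ht0 : 0 < t := by linarith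
    have hL : 0 < Real.log t := Real.log_pos h4
    have p1 : 0 < t ^ (z0.1 - ((k + 1 : ℕ) : ℝ)) := Real.rpow_pos_of_pos ht0 _
    have p2 : 0 < (Real.log t) ^ w := Real.rpow_pos_of_pos hL _
    have p3 : 0 < t ^ (z0.1 - ((k + 1 + 1 : ℕ) : ℝ)) := Real.rpow_pos_of_pos ht0 _
    have pR := mul_pos p1 p2
    have pR2 := mul_pos p3 p2
    rw [← mul_div_assoc, lt_div_iff₀ pR] at h1
    rw [← mul_div_assoc, div_lt_iff₀ pR] at h2
    rw [← mul_div_assoc, div_lt_iff₀ pR2, zero_mul] at h3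
    have eα : z0.1 - ((k + 1 : ℕ) : ℝ) = -α := by rw [hα]; push_cast; ring
    rw [eα] at h1 h2 p1
    refine ⟨h4, ?_, ?_, h3.le⟩
    · refine le_trans ?_ h1.le
      calc t ^ (-(α + 2 * ε)) = t ^ (-ε) * (t ^ (-α) * t ^ (-ε)) := by
            rw [← Real.rpow_add ht0, ← Real.rpow_add ht0]
            congr 1
            ring
        _ ≤ _ := by gcongr
    · refine h2.le.trans ?_
      calc 2 * (s * C) * (t ^ (-α) * (Real.log t) ^ w) ≤ t ^ ε * (t ^ (-α) * t ^ ε) := by gcongr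
        _ = t ^ (-(α - 2 * ε)) := by
            rw [← Real.rpow_add ht0, ← Real.rpow_add ht0]
            congr 1
            ring
  -- growth
  have hgrow : ∃ g : ℝ, 0 < g ∧ ∀ᶠ t : ℝ in atTop, t ^ g ≤ fs F a 0 t := by
    obtain ⟨z1, hz1, hmax1⟩ := Finset.exists_max_image (F.filter fun z => a z ≠ 0)
      (fun z => toLex z) ⟨zz, by rw [mem_filter]; exact ⟨hzz, hzz1⟩⟩
    rw [mem_filter] at hz1
    obtain ⟨hz1F, hz1a⟩ := hz1
    have hx1 : 0 < z1.1 := by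
      have h1 := hmax1 zz (by rw [mem_filter]; exact ⟨hzz, hzz1⟩)
      rw [Prod.Lex.toLex_le_toLex] at h1
      rcases h1 with h1 | ⟨h1, _⟩ <;> linarith
    have hT := tendsto_fs F a 0 hz1F (le_refl 0) (fun z hz j hj hne => by
      have hj : j = 0 := by omega
      by_cases ha : a z = 0
      · left; rw [ha, zero_mul]
      · have h1 := hmax1 z (by rw [mem_filter]; exact ⟨hz, ha⟩)
        rw [Prod.Lex.toLex_le_toLex] at h1
        rcases h1 with h1 | ⟨h1, h2⟩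
        · exact Or.inr (Or.inl h1)
        · right; right
          refine ⟨h1, ?_⟩
          rw [hj]
          rcases h2.lt_or_eq with h3 | h3
          · linarith
          · exact absurd (by rw [hj, Prod.ext h1 h3]) hne)
    have hcf : cf z1.1 z1.2 0 0 = 1 := rfl
    rw [hcf, mul_one, Nat.cast_zero, sub_zero, sub_zero] at hT
    have hf0 : ∀ t, fs F a 0 t = ∑ z ∈ F, a z * t ^ z.1 * (Real.log t) ^ z.2 := fun t => by
      unfold fs
      refine sum_congr rfl fun z _ => ?_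
      rw [lpd_zero, mul_assoc]
    have hpos : 0 < a z1 := by
      by_contra hneg
      have hneg' : a z1 < 0 := lt_of_le_of_ne (not_lt.1 hneg) hz1a
      have h1 := hT.eventually (gt_mem_nhds hneg')
      have h2 := hinf.eventually_ge_atTop 0
      obtain ⟨t, h3, h4, h5⟩ := (h1.and (h2.and (eventually_gt_atTop (1 : ℝ)))).exists
      have ht0 : 0 < t := by linarith
      have hL : 0 < Real.log t := Real.log_pos h5
      have pR := mul_pos (Real.rpow_pos_of_pos ht0 z1.1) (Real.rpow_pos_of_pos hL z1.2)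
      rw [div_lt_iff₀ pR, zero_mul, hf0] at h3
      linarith
    refine ⟨z1.1 / 2, by linarith, ?_⟩
    have e1 : a z1 / 2 < a z1 := by linarith
    filter_upwards [hT.eventually (lt_mem_nhds e1), eventually_gt_atTop (1 : ℝ),
      log_ge z1.2 (z1.1 / 4) (by linarith), const_ge (a z1 / 2) (z1.1 / 4) (by linarith) (by linarith)]
      with t h1 h4 h6 h8
    have ht0 : 0 < t := by linarith
    have hL : 0 < Real.log t := Real.log_pos h4
    have pR := mul_pos (Real.rpow_pos_of_pos ht0 z1.1) (Real.rpow_pos_of_pos hL z1.2)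
    rw [lt_div_iff₀ pR] at h1
    refine le_trans ?_ h1.le
    have p1 := Real.rpow_pos_of_pos ht0 z1.1
    calc t ^ (z1.1 / 2) = t ^ (-(z1.1 / 4)) * (t ^ z1.1 * t ^ (-(z1.1 / 4))) := by
          rw [← Real.rpow_add ht0, ← Real.rpow_add ht0]
          congr 1
          ring
      _ ≤ _ := by gcongr
  obtain ⟨g, hg, hgr⟩ := hgrow
  obtain ⟨t₀, ht₀⟩ := eventually_atTop.mp (hev.and hgr)
  obtain ⟨κ, hκ, δ, hδ, M₀, h⟩ := smooth_two k s hs (W / k) (α + 2 * ε) (α - 2 * ε) g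
    (div_pos (by linarith) (by linarith)) (by rw [div_lt_one (by linarith)]; linarith)
    (by rw [hWk]; linarith) (by rw [hWk]; linarith) hg (fs F a) t₀
    (fun m _ t ht => fs_der F a m (ht₀ t ht).1.1)
    (fun t ht => (ht₀ t ht).1.2.1) (fun t ht => (ht₀ t ht).1.2.2.1)
    (fun t ht => (ht₀ t ht).1.2.2.2) (fun t ht => (ht₀ t ht).2)
  refine ⟨κ, hκ, δ, hδ, M₀, fun M hM => ?_⟩
  obtain ⟨n, h1, h2, h3⟩ := h M hM
  refine ⟨n, h1, h2, fun q hq => ?_⟩
  have h4 := h3 q hq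
  have e3 : fs F a 0 n = ∑ z ∈ F, a z * (n : ℝ) ^ z.1 * (Real.log n) ^ z.2 := by
    unfold fs
    refine sum_congr rfl fun z _ => ?_
    rw [lpd_zero, mul_assoc]
  rwa [e3] at h4

end Pool.Agent.Y719.LP
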